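import Mathlib

/-! Three-term-progression-free blocks with prescribed size range and 2-adic valuation. -/

open Finset

namespace Pool.Agent.Helper233_Chg

/-- The `j`-th block: a large 3AP-free set in `(2^(j^2), 2^(j^2+1))`, all of whose elements have
2-adic valuation exactly `j`. -/
theorem exists_block (j : ℕ) (hj : 2 ≤ j) : ∃ R : Finset ℤ,
    (∀ y ∈ R, (2:ℤ) ^ (j ^ 2) < y ∧ y < 2 ^ (j ^ 2 + 1)) ∧
    (∀ y ∈ R, ∃ m : ℤ, y = 2 ^ j * (2 * m + 1)) ∧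
    (∀ a ∈ R, ∀ b ∈ R, ∀ c ∈ R, a + c = b + b → a = b) ∧
    (2:ℝ) ^ ((j:ℝ) ^ 2 - 8 * j) ≤ R.card := by
  obtain ⟨e, he⟩ : ∃ e : ℕ, j ^ 2 = j + 1 + e := ⟨j ^ 2 - (j + 1), by
    have : j + 1 ≤ j ^ 2 := by nlinarith
    omega⟩
  obtain ⟨t, htL, htc, ht3⟩ := rothNumberNat_spec (2 ^ e)
  have hinj : Function.Injective (fun s : ℕ => (2:ℤ) ^ (j ^ 2) + 2 ^ j + 2 ^ (j + 1) * (s : ℤ)) := by
    intro s s' h
    simp only at h
    have h2 : (2:ℤ) ^ (j + 1) ≠ 0 := by positivity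
    have h3 : (2:ℤ) ^ (j + 1) * (s : ℤ) = 2 ^ (j + 1) * (s' : ℤ) := by linarith
    exact_mod_cast mul_left_cancel₀ h2 h3
  refine ⟨t.image (fun s : ℕ => (2:ℤ) ^ (j ^ 2) + 2 ^ j + 2 ^ (j + 1) * (s : ℤ)), ?_, ?_, ?_, ?_⟩
  · intro y hy
    obtain ⟨s, hs, rfl⟩ := Finset.mem_image.1 hy
    have hsL : s < 2 ^ e := Finset.mem_range.1 (htL hs)
    have hj0 : (0:ℤ) < 2 ^ j := by positivity
    have hs0 : (0:ℤ) ≤ s := Int.natCast_nonneg s
    have hs1 : (s:ℤ) + 1 ≤ 2 ^ e := by exact_mod_cast hsL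
    constructor
    · have : (0:ℤ) ≤ 2 ^ (j + 1) * (s : ℤ) := by positivity
      linarith
    · have h1 : (2:ℤ) ^ (j + 1) * ((s : ℤ) + 1) ≤ 2 ^ (j + 1) * 2 ^ e :=
        mul_le_mul_of_nonneg_left hs1 (by positivity)
      have h2 : (2:ℤ) ^ (j + 1) * 2 ^ e = 2 ^ (j ^ 2) := by rw [← pow_add, he]
      have h3 : (2:ℤ) ^ (j ^ 2 + 1) = 2 * 2 ^ (j ^ 2) := by rw [pow_succ]; ring
      have h4 : (2:ℤ) ^ (j + 1) = 2 * 2 ^ j := by rw [pow_succ]; ring
      rw [h3]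
      nlinarith
  · intro y hy
    obtain ⟨s, _, rfl⟩ := Finset.mem_image.1 hy
    refine ⟨2 ^ e + s, ?_⟩
    rw [he]
    ring
  · intro a ha b hb c hc habc
    obtain ⟨s1, hs1, rfl⟩ := Finset.mem_image.1 ha
    obtain ⟨s2, hs2, rfl⟩ := Finset.mem_image.1 hb
    obtain ⟨s3, hs3, rfl⟩ := Finset.mem_image.1 hc
    have h2 : (2:ℤ) ^ (j + 1) ≠ 0 := by positivity
    have h3 : (2:ℤ) ^ (j + 1) * ((s1 : ℤ) + s3) = 2 ^ (j + 1) * ((s2 : ℤ) + s2) := by linarith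
    have h4 : s1 + s3 = s2 + s2 := by exact_mod_cast mul_left_cancel₀ h2 h3
    have h5 : s1 = s2 := ht3 (by exact_mod_cast hs1) (by exact_mod_cast hs2) (by exact_mod_cast hs3) h4
    rw [h5]
  · rw [Finset.card_image_of_injective _ hinj, htc]
    have hB := Behrend.roth_lower_bound (N := 2 ^ e)
    refine le_trans ?_ hB
    have hjR : (2:ℝ) ≤ j := by exact_mod_cast hj
    have heR : ((j:ℝ)) ^ 2 = j + 1 + e := by exact_mod_cast he
    push_cast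
    have hlog2 : Real.log 2 < 1 := by
      have := Real.log_two_lt_d9
      linarith
    have hlog2' : (0.69:ℝ) < Real.log 2 := by
      have := Real.log_two_gt_d9
      linarith
    have hlog : Real.log ((2:ℝ) ^ e) = e * Real.log 2 := by rw [Real.log_pow]
    have hsq : √(Real.log ((2:ℝ) ^ e)) ≤ j := by
      rw [hlog]
      apply Real.sqrt_le_iff.2
      constructor
      · linarith
      · have he0 : (0:ℝ) ≤ e := Nat.cast_nonneg e
        nlinarith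
    have h1 : (2:ℝ) ^ ((j:ℝ) ^ 2 - 8 * j) = Real.exp (Real.log 2 * ((j:ℝ) ^ 2 - 8 * j)) := by
      rw [Real.rpow_def_of_pos (by norm_num)]
    have h2 : (2:ℝ) ^ e = Real.exp (Real.log 2 * e) := by
      rw [← Real.rpow_natCast, Real.rpow_def_of_pos (by norm_num)]
    rw [h1]
    nth_rewrite 1 [h2]
    rw [← Real.exp_add]
    apply Real.exp_le_exp.2
    nlinarith

end Pool.Agent.Helper233_Chg
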