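import Mathlib

/-! Cross-block structure of sumset configurations. -/

open Finset

namespace Pool.Agent.Helper233_Chg

/-- A family of blocks: block `j ≥ 2` is a 3AP-free set in `(2^(j^2), 2^(j^2+1))` whose elements have
2-adic valuation exactly `j`. -/
structure BlockFam (R : ℕ → Finset ℤ) : Prop where
  range : ∀ j, 2 ≤ j → ∀ y ∈ R j, (2:ℤ) ^ (j ^ 2) < y ∧ y < 2 ^ (j ^ 2 + 1)
  val : ∀ j, 2 ≤ j → ∀ y ∈ R j, ∃ m : ℤ, y = 2 ^ j * (2 * m + 1)
  free : ∀ j, 2 ≤ j → ∀ a ∈ R j, ∀ b ∈ R j, ∀ c ∈ R j, a + c = b + b → a = b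

variable {R : ℕ → Finset ℤ}

lemma minor_le (hR : BlockFam R) {a b c d : ℕ} (ha : 2 ≤ a) (hb : 2 ≤ b) (hc : 2 ≤ c) (hd : 2 ≤ d)
    {p q r s : ℤ} (hp : p ∈ R a) (hq : q ∈ R b) (hr : r ∈ R c) (hs : s ∈ R d) (h : p + q = r + s) :
    a ≤ c ∨ a ≤ d := by
  by_contra hcon
  push Not at hcon
  obtain ⟨hca, hda⟩ := hcon
  obtain ⟨e, rfl⟩ : ∃ e, a = e + 1 := ⟨a - 1, by omega⟩
  have h1 := (hR.range (e + 1) ha p hp).1
  have h2 := (hR.range b hb q hq).1
  have h3 := (hR.range c hc r hr).2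
  have h4 := (hR.range d hd s hs).2
  have h5 : (0:ℤ) < 2 ^ (b ^ 2) := by positivity
  have hce : c ^ 2 ≤ e ^ 2 := Nat.pow_le_pow_left (by omega) 2
  have hde : d ^ 2 ≤ e ^ 2 := Nat.pow_le_pow_left (by omega) 2
  have h6 : (2:ℤ) ^ (c ^ 2 + 1) ≤ 2 ^ (e ^ 2 + 1) := pow_le_pow_right₀ (by norm_num) (by omega)
  have h7 : (2:ℤ) ^ (d ^ 2 + 1) ≤ 2 ^ (e ^ 2 + 1) := pow_le_pow_right₀ (by norm_num) (by omega)
  have h8 : (2:ℤ) ^ (e ^ 2 + 2) ≤ 2 ^ ((e + 1) ^ 2) := pow_le_pow_right₀ (by norm_num) (by nlinarith)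
  have h9 : (2:ℤ) ^ (e ^ 2 + 2) = 2 ^ (e ^ 2 + 1) + 2 ^ (e ^ 2 + 1) := by ring
  linarith

lemma minor_val (hR : BlockFam R) {a b d : ℕ} (ha : 2 ≤ a) (hb : 2 ≤ b) (hd : 2 ≤ d)
    (hba : b ≤ a)
    {p q r s : ℤ} (hp : p ∈ R a) (hq : q ∈ R b) (hr : r ∈ R a) (hs : s ∈ R d) (h : p + q = r + s) :
    ¬ b < d := by
  intro hbd
  by_cases hab : b = a
  · subst hab
    -- then all of p, r, q have valuation b, and s has a bigger one
    obtain ⟨m1, h1⟩ := hR.val b hb p hp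
    obtain ⟨m2, h2⟩ := hR.val b hb q hq
    obtain ⟨m3, h3⟩ := hR.val b hb r hr
    obtain ⟨m4, h4⟩ := hR.val d hd s hs
    obtain ⟨f, rfl⟩ : ∃ f, d = b + 1 + f := ⟨d - (b + 1), by omega⟩
    have h5 : (2:ℤ) ^ (b + 1 + f) = 2 ^ b * (2 * 2 ^ f) := by ring
    rw [h1, h2, h3, h4, h5, ← mul_add, mul_assoc, ← mul_add] at h
    have h6 := mul_left_cancel₀ (by positivity : (2:ℤ) ^ b ≠ 0) h
    have h7 : 2 * (m1 + m2 - m3 + 1 - 2 ^ f * (2 * m4 + 1)) = (1:ℤ) := by linarith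
    omega
  · have hba' : b < a := lt_of_le_of_ne hba hab
    obtain ⟨m1, h1⟩ := hR.val a ha p hp
    obtain ⟨m2, h2⟩ := hR.val b hb q hq
    obtain ⟨m3, h3⟩ := hR.val a ha r hr
    obtain ⟨m4, h4⟩ := hR.val d hd s hs
    obtain ⟨f, rfl⟩ : ∃ f, d = b + 1 + f := ⟨d - (b + 1), by omega⟩
    obtain ⟨e, rfl⟩ : ∃ e, a = b + 1 + e := ⟨a - (b + 1), by omega⟩
    have h5 : (2:ℤ) ^ (b + 1 + f) = 2 ^ b * (2 * 2 ^ f) := by ring
    have h5' : (2:ℤ) ^ (b + 1 + e) = 2 ^ b * (2 * 2 ^ e) := by ring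
    have h5'' : (2:ℤ) ^ b * (2 * (2 ^ e * (2 * m1 + 1)) + (2 * m2 + 1)) =
        2 ^ b * (2 * (2 ^ e * (2 * m3 + 1)) + 2 * (2 ^ f * (2 * m4 + 1))) := by
      rw [h1, h2, h3, h4, h5, h5'] at h
      linarith
    have h6 := mul_left_cancel₀ (by positivity : (2:ℤ) ^ b ≠ 0) h5''
    have h7 : 2 * (2 ^ e * (2 * m3 + 1) + 2 ^ f * (2 * m4 + 1) - 2 ^ e * (2 * m1 + 1) - m2) = (1:ℤ) := by
      linarith
    omega

lemma minor_eq (hR : BlockFam R) {a b d : ℕ} (ha : 2 ≤ a) (hb : 2 ≤ b) (hd : 2 ≤ d)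
    (hba : b ≤ a) (hda : d ≤ a)
    {p q r s : ℤ} (hp : p ∈ R a) (hq : q ∈ R b) (hr : r ∈ R a) (hs : s ∈ R d) (h : p + q = r + s) :
    b = d := by
  have h1 := minor_val hR ha hb hd hba hp hq hr hs h
  have h2 := minor_val hR ha hd hb hda hr hs hp hq h.symm
  omega

/-- Lemma M: in `p + q = r + s` the blocks of `p, q` are those of `r, s`. -/
lemma minor (hR : BlockFam R) {a b c d : ℕ} (ha : 2 ≤ a) (hb : 2 ≤ b) (hc : 2 ≤ c) (hd : 2 ≤ d)
    {p q r s : ℤ} (hp : p ∈ R a) (hq : q ∈ R b) (hr : r ∈ R c) (hs : s ∈ R d) (h : p + q = r + s) :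
    (a = c ∧ b = d) ∨ (a = d ∧ b = c) := by
  have e1 : q + p = r + s := by linarith
  have e2 : r + s = p + q := h.symm
  have e3 : s + r = p + q := by linarith
  have h1 := minor_le hR ha hb hc hd hp hq hr hs h
  have h2 := minor_le hR hb ha hc hd hq hp hr hs e1
  have h3 := minor_le hR hc hd ha hb hr hs hp hq e2
  have h4 := minor_le hR hd hc ha hb hs hr hp hq e3
  rcases le_total b a with hba | hab
  · rcases le_total d c with hdc | hcd
    · have hac : a = c := by omega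
      subst hac
      exact Or.inl ⟨rfl, minor_eq hR ha hb hd hba hdc hp hq hr hs h⟩
    · have had : a = d := by omega
      subst had
      exact Or.inr ⟨rfl, minor_eq hR ha hb hc hba hcd hp hq hs hr (by linarith)⟩
  · rcases le_total d c with hdc | hcd
    · have hbc : b = c := by omega
      subst hbc
      exact Or.inr ⟨minor_eq hR hb ha hd hab hdc hq hp hr hs e1, rfl⟩
    · have hbd : b = d := by omega
      subst hbd
      exact Or.inl ⟨minor_eq hR hb ha hc hab hcd hq hp hs hr (by linarith), rfl⟩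

/-- The block pattern of a sumset configuration depends only on the row or only on the column. -/
lemma row_or_col (hR : BlockFam R) {m l : ℕ} (x : Fin m → ℤ) (k : Fin l → ℤ)
    (J : Fin m → Fin l → ℕ) (hJ2 : ∀ a b, 2 ≤ J a b) (hJ : ∀ a b, x a + k b ∈ R (J a b)) :
    (∀ a b d, J a b = J a d) ∨ (∀ a c b, J a b = J c b) := by
  have key : ∀ a c b d, (J a b = J a d ∧ J c d = J c b) ∨ (J a b = J c b ∧ J c d = J a d) := by
    intro a c b d
    exact minor hR (hJ2 a b) (hJ2 c d) (hJ2 a d) (hJ2 c b) (hJ a b) (hJ c d) (hJ a d) (hJ c b) (by ring)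
  by_cases hrow : ∀ a b d, J a b = J a d
  · exact Or.inl hrow
  · right
    push Not at hrow
    obtain ⟨a, b, d, hne⟩ := hrow
    -- columns b and d are constant
    have hb : ∀ c, J c b = J a b := by
      intro c
      rcases key a c b d with h | h
      · exact absurd h.1 hne
      · exact h.1.symm
    have hd : ∀ c, J c d = J a d := by
      intro c
      rcases key a c b d with h | h
      · exact absurd h.1 hne
      · exact h.2
    have hall : ∀ c e, J c e = J a e := by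
      intro c e
      by_cases he : J a e = J a b
      · -- then J a e ≠ J a d
        have hne' : J a e ≠ J a d := by rw [he]; exact hne
        rcases key a c e d with h | h
        · exact absurd h.1 hne'
        · exact h.1.symm
      · rcases key a c e b with h | h
        · exact absurd h.1 he
        · exact h.1.symm
    intro c c' e
    rw [hall c e, hall c' e]

/-- All the sums in a configuration are distinct. -/
lemma sums_inj (hR : BlockFam R) {m l : ℕ} (x : Fin m → ℤ) (k : Fin l → ℤ)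
    (hx : Function.Injective x) (hk : Function.Injective k)
    (J : Fin m → Fin l → ℕ) (hJ2 : ∀ a b, 2 ≤ J a b) (hJ : ∀ a b, x a + k b ∈ R (J a b))
    (huniq : ∀ i j y, 2 ≤ i → 2 ≤ j → y ∈ R i → y ∈ R j → i = j)
    {a c : Fin m} {b d : Fin l} (h : x a + k b = x c + k d) : a = c ∧ b = d := by
  have h1 : J a b = J c d := huniq _ _ _ (hJ2 a b) (hJ2 c d) (hJ a b) (h ▸ hJ c d)
  have h2 := minor hR (hJ2 a b) (hJ2 c d) (hJ2 a d) (hJ2 c b) (hJ a b) (hJ c d) (hJ a d) (hJ c b)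
    (by ring)
  have h3 : J a d = J a b ∧ J c b = J a b := by omega
  have h4 : x a + k d ∈ R (J a b) := h3.1 ▸ hJ a d
  have h5 : x c + k b ∈ R (J a b) := h3.2 ▸ hJ c b
  have h6 : x a + k d = x a + k b := by
    refine hR.free (J a b) (hJ2 a b) _ h4 _ (hJ a b) _ h5 ?_
    linarith
  have hbd : b = d := hk (by linarith)
  subst hbd
  exact ⟨hx (by linarith), rfl⟩

end Pool.Agent.Helper233_Chg
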