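import Mathlib
import Pool.Agent.Helper233_Chg.Struct

/-! Counting configurations with top block `J`. -/

open Finset

namespace Pool.Agent.Helper233_Chg

/-- index of the block containing `y` -/
def blkIdx (y : ℤ) : ℕ := Nat.sqrt (Nat.log 2 y.toNat)

lemma blkIdx_eq {j : ℕ} {y : ℤ} (h1 : (2:ℤ) ^ (j ^ 2) < y) (h2 : y < 2 ^ (j ^ 2 + 1)) :
    blkIdx y = j := by
  unfold blkIdx
  have hy0 : 0 ≤ y := le_trans (by positivity) h1.le
  obtain ⟨n, rfl⟩ := Int.eq_ofNat_of_zero_le hy0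
  have h1' : 2 ^ (j ^ 2) < n := by exact_mod_cast h1
  have h2' : n < 2 ^ (j ^ 2 + 1) := by exact_mod_cast h2
  rw [Int.toNat_natCast, Nat.log_eq_of_pow_le_of_lt_pow h1'.le h2', Nat.sqrt_eq']

/-- inclusion probability of the elements of block `j` -/
noncomputable def pj (β : ℝ) (j : ℕ) : ℝ := (2:ℝ) ^ (-(β * (j:ℝ) ^ 2 + 9 * j))

lemma pj_pos (β : ℝ) (j : ℕ) : 0 < pj β j := Real.rpow_pos_of_pos (by norm_num) _

lemma pj_le_one {β : ℝ} (hβ : 0 ≤ β) (j : ℕ) : pj β j ≤ 1 := by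
  unfold pj
  apply Real.rpow_le_one_of_one_le_of_nonpos (by norm_num)
  have : 0 ≤ β * (j:ℝ) ^ 2 + 9 * j := by positivity
  linarith

variable {R : ℕ → Finset ℤ}

lemma card_block_le (hR : BlockFam R) {j : ℕ} (hj : 2 ≤ j) : ((R j).card : ℝ) ≤ (2:ℝ) ^ ((j:ℝ) ^ 2) := by
  have h1 : R j ⊆ Finset.Ioo ((2:ℤ) ^ (j ^ 2)) (2 ^ (j ^ 2 + 1)) := by
    intro y hy
    exact Finset.mem_Ioo.2 (hR.range j hj y hy)
  have h2 := Finset.card_le_card h1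
  rw [Int.card_Ioo] at h2
  have h3 : ((2:ℤ) ^ (j ^ 2 + 1) - 2 ^ (j ^ 2) - 1).toNat ≤ 2 ^ (j ^ 2) := by
    rw [Int.toNat_le]
    push_cast
    rw [pow_succ (2:ℤ) (j ^ 2)]
    linarith
  have h4 : ((R j).card : ℝ) ≤ ((2 ^ (j ^ 2) : ℕ) : ℝ) := by exact_mod_cast h2.trans h3
  refine h4.trans (le_of_eq ?_)
  push_cast
  rw [← Real.rpow_natCast]
  push_cast
  rfl

/-- the parameters `(x, k)` of the row-type configurations with row blocks `ρ` -/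
noncomputable def TT (R : ℕ → Finset ℤ) (m l : ℕ) (ρ : Fin (m + 1) → ℕ) :
    Finset ((Fin (m + 1) → ℤ) × (Fin (l + 1) → ℤ)) :=
  ((Fintype.piFinset fun a => R (ρ a)) ×ˢ
    (Fintype.piFinset fun b : Fin (l + 1) => if b = 0 then {0} else
      Finset.Ioo (-(2:ℤ) ^ ((Finset.univ.inf' Finset.univ_nonempty ρ) ^ 2))
        (2 ^ ((Finset.univ.inf' Finset.univ_nonempty ρ) ^ 2)))).filter
    (fun t => (∀ a b, t.1 a + t.2 b ∈ R (ρ a)) ∧
      ∀ a b c d, t.1 a + t.2 b = t.1 c + t.2 d → a = c ∧ b = d)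

/-- the set of sums of a configuration -/
def Ymap {m l : ℕ} (t : (Fin (m + 1) → ℤ) × (Fin (l + 1) → ℤ)) : Finset ℤ :=
  (Finset.univ : Finset (Fin (m + 1) × Fin (l + 1))).image (fun ab => t.1 ab.1 + t.2 ab.2)

/-- block patterns of the rows with largest block `J` -/
noncomputable def PP (m J0 J : ℕ) : Finset (Fin (m + 1) → ℕ) :=
  (Fintype.piFinset fun _ : Fin (m + 1) => Finset.Icc J0 J).filter (fun ρ => ∃ a, ρ a = J)

/-- the sum sets of the row-type configurations with largest block `J` -/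
noncomputable def rowSets (R : ℕ → Finset ℤ) (m l J0 J : ℕ) : Finset (Finset ℤ) :=
  (PP m J0 J).biUnion fun ρ => (TT R m l ρ).image Ymap

lemma card_TT_le (hR : BlockFam R) (m l : ℕ) (ρ : Fin (m + 1) → ℕ) (hρ : ∀ a, 2 ≤ ρ a) :
    ((TT R m l ρ).card : ℝ) ≤ (∏ a, (2:ℝ) ^ ((ρ a : ℝ) ^ 2)) *
      ((2:ℝ) ^ (((Finset.univ.inf' Finset.univ_nonempty ρ : ℕ) : ℝ) ^ 2 + 1)) ^ l := by
  set i := Finset.univ.inf' Finset.univ_nonempty ρ with hi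
  have h1 : (TT R m l ρ).card ≤ ((Fintype.piFinset fun a => R (ρ a)) ×ˢ
    (Fintype.piFinset fun b : Fin (l + 1) => if b = 0 then ({0} : Finset ℤ) else
      Finset.Ioo (-(2:ℤ) ^ (i ^ 2)) (2 ^ (i ^ 2)))).card := Finset.card_filter_le _ _
  rw [Finset.card_product, Fintype.card_piFinset, Fintype.card_piFinset, Fin.prod_univ_succ
    (f := fun b : Fin (l + 1) => (if b = 0 then ({0} : Finset ℤ) else
      Finset.Ioo (-(2:ℤ) ^ (i ^ 2)) (2 ^ (i ^ 2))).card)] at h1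
  have h2 : ∀ b : Fin l, ((if (b.succ : Fin (l + 1)) = 0 then ({0} : Finset ℤ) else
      Finset.Ioo (-(2:ℤ) ^ (i ^ 2)) (2 ^ (i ^ 2))).card : ℝ) ≤ (2:ℝ) ^ ((i:ℝ) ^ 2 + 1) := by
    intro b
    rw [if_neg (Fin.succ_ne_zero b), Int.card_Ioo]
    have h3 : ((2:ℤ) ^ (i ^ 2) - -2 ^ (i ^ 2) - 1).toNat ≤ 2 ^ (i ^ 2 + 1) := by
      rw [Int.toNat_le]
      push_cast
      rw [pow_succ (2:ℤ) (i ^ 2)]
      linarith
    have h4 : ((((2:ℤ) ^ (i ^ 2) - -2 ^ (i ^ 2) - 1).toNat : ℕ) : ℝ) ≤ ((2 ^ (i ^ 2 + 1) : ℕ) : ℝ) := by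
      exact_mod_cast h3
    refine h4.trans (le_of_eq ?_)
    push_cast
    rw [← Real.rpow_natCast]
    push_cast
    rfl
  have h5 : ((TT R m l ρ).card : ℝ) ≤ (∏ a, ((R (ρ a)).card : ℝ)) *
      ∏ b : Fin l, ((if (b.succ : Fin (l + 1)) = 0 then ({0} : Finset ℤ) else
      Finset.Ioo (-(2:ℤ) ^ (i ^ 2)) (2 ^ (i ^ 2))).card : ℝ) := by
    have : ((TT R m l ρ).card : ℝ) ≤ _ := Nat.cast_le.2 h1
    push_cast at this
    simpa using this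
  refine h5.trans ?_
  refine mul_le_mul ?_ ?_ (Finset.prod_nonneg fun _ _ => Nat.cast_nonneg _)
    (Finset.prod_nonneg fun _ _ => (Real.rpow_pos_of_pos (by norm_num) _).le)
  · exact Finset.prod_le_prod (fun _ _ => Nat.cast_nonneg _) fun a _ => card_block_le hR (hρ a)
  · refine (Finset.prod_le_prod (fun _ _ => Nat.cast_nonneg _) fun b _ => h2 b).trans (le_of_eq ?_)
    rw [Finset.prod_const, Finset.card_univ, Fintype.card_fin]

lemma prod_Ymap (hR : BlockFam R) {m l : ℕ} {ρ : Fin (m + 1) → ℕ} (hρ : ∀ a, 2 ≤ ρ a) (β : ℝ)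
    {t : (Fin (m + 1) → ℤ) × (Fin (l + 1) → ℤ)} (ht : t ∈ TT R m l ρ) :
    ∏ y ∈ Ymap t, pj β (blkIdx y) = ∏ a, (pj β (ρ a)) ^ (l + 1) := by
  have ht2 := (Finset.mem_filter.1 ht).2
  unfold Ymap
  rw [Finset.prod_image]
  · rw [Fintype.prod_prod_type]
    refine Finset.prod_congr rfl fun a _ => ?_
    have : ∀ b : Fin (l + 1), pj β (blkIdx (t.1 a + t.2 b)) = pj β (ρ a) := by
      intro b
      have h := hR.range (ρ a) (hρ a) _ (ht2.1 a b)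
      rw [blkIdx_eq h.1 h.2]
    simp only [this]
    rw [Finset.prod_const, Finset.card_univ, Fintype.card_fin]
  · rintro ⟨a, b⟩ _ ⟨c, d⟩ _ h
    obtain ⟨h1, h2⟩ := ht2.2 a b c d h
    rw [h1, h2]

/-- the exponent of the main term -/
noncomputable def alf (m l : ℕ) : ℝ := (m * l : ℝ) / (m * l + m + l)

/-- `1 - alf` -/
noncomputable def bet (m l : ℕ) : ℝ := (m + l : ℝ) / (m * l + m + l)

lemma alf_comm (m l : ℕ) : alf m l = alf l m := by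
  unfold alf
  rw [mul_comm (m:ℝ) l]
  congr 1
  ring

lemma bet_comm (m l : ℕ) : bet m l = bet l m := by
  unfold bet
  rw [add_comm (m:ℝ) l, mul_comm (m:ℝ) l]
  congr 1
  ring

lemma alf_add_bet {m l : ℕ} (hm : 1 ≤ m) : alf m l + bet m l = 1 := by
  unfold alf bet
  have : (0:ℝ) < m := by exact_mod_cast hm
  have hD : (0:ℝ) < m * l + m + l := by positivity
  rw [← add_div]
  field_simp
  ring

lemma alf_pos {m l : ℕ} (hm : 1 ≤ m) (hl : 1 ≤ l) : 0 < alf m l := by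
  unfold alf
  have : (0:ℝ) < m := by exact_mod_cast hm
  have : (0:ℝ) < l := by exact_mod_cast hl
  positivity

lemma bet_nonneg (m l : ℕ) : 0 ≤ bet m l := by
  unfold bet
  positivity

lemma term_le (hR : BlockFam R) {m l : ℕ} (hm : 1 ≤ m) (hl : 1 ≤ l) {J0 J : ℕ} (hJ0 : 2 ≤ J0)
    {ρ : Fin (m + 1) → ℕ} (hρ : ρ ∈ PP m J0 J) :
    ((TT R m l ρ).card : ℝ) * ∏ a, (pj (bet m l) (ρ a)) ^ (l + 1) ≤
      (2:ℝ) ^ ((l:ℝ) + alf m l * (J:ℝ) ^ 2 - 18 * J) := by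
  obtain ⟨hρ1, a1, ha1⟩ := Finset.mem_filter.1 hρ
  have hρ2 : ∀ a, J0 ≤ ρ a ∧ ρ a ≤ J := fun a => Finset.mem_Icc.1 (Fintype.mem_piFinset.1 hρ1 a)
  have hρ3 : ∀ a, 2 ≤ ρ a := fun a => hJ0.trans (hρ2 a).1
  set i := Finset.univ.inf' Finset.univ_nonempty ρ with hi
  have hiρ : ∀ a, i ≤ ρ a := fun a => Finset.inf'_le _ (Finset.mem_univ a)
  have hiJ : i ≤ J := (hiρ a1).trans (hρ2 a1).2
  have h1 := card_TT_le hR m l ρ hρ3
  rw [← hi] at h1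
  have hpos : 0 ≤ ∏ a, (pj (bet m l) (ρ a)) ^ (l + 1) :=
    Finset.prod_nonneg fun a _ => pow_nonneg (pj_pos _ _).le _
  refine (mul_le_mul_of_nonneg_right h1 hpos).trans ?_
  -- rewrite everything as a power of 2
  have e1 : (∏ a, (2:ℝ) ^ ((ρ a : ℝ) ^ 2)) = (2:ℝ) ^ (∑ a, (ρ a : ℝ) ^ 2) := by
    rw [Real.rpow_sum_of_pos (by norm_num)]
  have e2 : ((2:ℝ) ^ ((i:ℝ) ^ 2 + 1)) ^ l = (2:ℝ) ^ (((i:ℝ) ^ 2 + 1) * l) := by
    rw [Real.rpow_mul (by norm_num), Real.rpow_natCast]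
  have e3 : ∏ a, (pj (bet m l) (ρ a)) ^ (l + 1) =
      (2:ℝ) ^ (∑ a, -(bet m l * (ρ a:ℝ) ^ 2 + 9 * ρ a) * ((l:ℝ) + 1)) := by
    rw [Real.rpow_sum_of_pos (by norm_num)]
    refine Finset.prod_congr rfl fun a _ => ?_
    unfold pj
    rw [Real.rpow_mul (by norm_num), ← Real.rpow_natCast]
    push_cast
    rfl
  rw [e1, e2, e3, ← Real.rpow_add (by norm_num), ← Real.rpow_add (by norm_num)]
  apply Real.rpow_le_rpow_of_exponent_le (by norm_num)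
  -- exponent inequality
  have hmR : (1:ℝ) ≤ m := by exact_mod_cast hm
  have hlR : (1:ℝ) ≤ l := by exact_mod_cast hl
  have hD : (0:ℝ) < m * l + m + l := by positivity
  have hb : (l + 1) * bet m l - 1 = (l:ℝ) ^ 2 / (m * l + m + l) := by
    unfold bet
    field_simp
    ring
  have ha : alf m l = l - (m + 1) * ((l:ℝ) ^ 2 / (m * l + m + l)) := by
    unfold alf
    field_simp
    ring
  have hs1 : ((m:ℝ) + 1) * (i:ℝ) ^ 2 ≤ ∑ a, (ρ a : ℝ) ^ 2 := by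
    have : ∑ _a : Fin (m + 1), (i:ℝ) ^ 2 ≤ ∑ a, (ρ a : ℝ) ^ 2 := by
      refine Finset.sum_le_sum fun a _ => ?_
      have : (i:ℝ) ≤ ρ a := by exact_mod_cast hiρ a
      exact pow_le_pow_left₀ (Nat.cast_nonneg _) this 2
    simpa using this
  have hs2 : (J:ℝ) ≤ ∑ a, (ρ a : ℝ) := by
    have := Finset.single_le_sum (f := fun a => (ρ a : ℝ)) (fun a _ => Nat.cast_nonneg _) (Finset.mem_univ a1)
    simp only [ha1] at this
    exact this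
  have e4 : ∑ a, -(bet m l * (ρ a:ℝ) ^ 2 + 9 * ρ a) * ((l:ℝ) + 1) =
      -((l + 1) * bet m l) * (∑ a, (ρ a : ℝ) ^ 2) - 9 * (l + 1) * ∑ a, (ρ a : ℝ) := by
    rw [Finset.mul_sum, Finset.mul_sum, ← Finset.sum_sub_distrib]
    refine Finset.sum_congr rfl fun a _ => ?_
    ring
  rw [e4]
  have hc : 0 ≤ (l:ℝ) ^ 2 / (m * l + m + l) := by positivity
  have hb' : (l + 1) * bet m l = 1 + (l:ℝ) ^ 2 / (m * l + m + l) := by linarith
  rw [hb']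
  have hiJR : (i:ℝ) ^ 2 ≤ (J:ℝ) ^ 2 := pow_le_pow_left₀ (Nat.cast_nonneg _) (by exact_mod_cast hiJ) 2
  have ha0 := (alf_pos hm hl).le
  have h3 := mul_le_mul_of_nonneg_left hs1 hc
  have h4 := mul_le_mul_of_nonneg_left hiJR ha0
  have h5 : (18:ℝ) * J ≤ 9 * (l + 1) * ∑ a, (ρ a : ℝ) := by
    have hJ0' : (0:ℝ) ≤ J := Nat.cast_nonneg _
    have : (18:ℝ) ≤ 9 * (l + 1) := by linarith
    nlinarith
  have h6 : alf m l * (i:ℝ) ^ 2 = l * (i:ℝ) ^ 2 - (l:ℝ) ^ 2 / (m * l + m + l) * (((m:ℝ) + 1) * (i:ℝ) ^ 2) := by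
    rw [ha]
    ring
  linarith

lemma sum_biUnion_le {ι β : Type*} [DecidableEq β] (s : Finset ι) (t : ι → Finset β) (f : β → ℝ)
    (hf : ∀ b, 0 ≤ f b) : ∑ b ∈ s.biUnion t, f b ≤ ∑ i ∈ s, ∑ b ∈ t i, f b := by
  classical
  induction s using Finset.induction_on with
  | empty => simp
  | insert a s ha ih =>
    rw [Finset.biUnion_insert, Finset.sum_insert ha]
    have h1 := Finset.sum_union_inter (s₁ := t a) (s₂ := s.biUnion t) (f := f)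
    have h2 : 0 ≤ ∑ b ∈ t a ∩ s.biUnion t, f b := Finset.sum_nonneg fun b _ => hf b
    linarith

lemma sum_rowSets_le (hR : BlockFam R) {m l : ℕ} (hm : 1 ≤ m) (hl : 1 ≤ l) {J0 J : ℕ} (hJ0 : 2 ≤ J0) :
    ∑ Y ∈ rowSets R m l J0 J, ∏ y ∈ Y, pj (bet m l) (blkIdx y) ≤
      ((J:ℝ) + 1) ^ (m + 1) * (2:ℝ) ^ ((l:ℝ) + alf m l * (J:ℝ) ^ 2 - 18 * J) := by
  have hnn : ∀ Y : Finset ℤ, 0 ≤ ∏ y ∈ Y, pj (bet m l) (blkIdx y) :=
    fun Y => Finset.prod_nonneg fun y _ => (pj_pos _ _).le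
  unfold rowSets
  have h1 : ∑ Y ∈ (PP m J0 J).biUnion (fun ρ => (TT R m l ρ).image Ymap),
      ∏ y ∈ Y, pj (bet m l) (blkIdx y) ≤
      ∑ ρ ∈ PP m J0 J, ∑ Y ∈ (TT R m l ρ).image Ymap, ∏ y ∈ Y, pj (bet m l) (blkIdx y) := by
    exact sum_biUnion_le _ _ _ hnn
  refine h1.trans ?_
  have h2 : ∀ ρ ∈ PP m J0 J, ∑ Y ∈ (TT R m l ρ).image Ymap, ∏ y ∈ Y, pj (bet m l) (blkIdx y) ≤
      (2:ℝ) ^ ((l:ℝ) + alf m l * (J:ℝ) ^ 2 - 18 * J) := by
    intro ρ hρ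
    refine le_trans ?_ (term_le hR hm hl hJ0 hρ)
    have hρ3 : ∀ a, 2 ≤ ρ a := fun a =>
      hJ0.trans (Finset.mem_Icc.1 (Fintype.mem_piFinset.1 (Finset.mem_filter.1 hρ).1 a)).1
    have h3 : ∑ Y ∈ (TT R m l ρ).image Ymap, ∏ y ∈ Y, pj (bet m l) (blkIdx y) ≤
        ∑ t ∈ TT R m l ρ, ∏ y ∈ Ymap t, pj (bet m l) (blkIdx y) := by
      exact Finset.sum_image_le_of_nonneg fun Y _ => hnn Y
    refine h3.trans (le_of_eq ?_)
    rw [Finset.sum_congr rfl fun t ht => prod_Ymap hR hρ3 (bet m l) ht, Finset.sum_const, nsmul_eq_mul]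
  refine (Finset.sum_le_sum h2).trans ?_
  rw [Finset.sum_const, nsmul_eq_mul]
  refine mul_le_mul_of_nonneg_right ?_ (Real.rpow_pos_of_pos (by norm_num) _).le
  have h4 : (PP m J0 J).card ≤ (J + 1) ^ (m + 1) := by
    refine (Finset.card_filter_le _ _).trans ?_
    rw [Fintype.card_piFinset]
    simp only [Nat.card_Icc, Finset.prod_const, Finset.card_univ, Fintype.card_fin]
    exact Nat.pow_le_pow_left (by omega) _
  exact_mod_cast h4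

end Pool.Agent.Helper233_Chg
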