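import Mathlib

/-! A finite product probability (independent inclusion) and a union bound. -/

open Finset

namespace Pool.Agent.Helper233_Chg

variable {α : Type*} [DecidableEq α]

/-- probability of `B` when each `y ∈ U` is included independently with probability `p y` -/
noncomputable def PW (U : Finset α) (p : α → ℝ) (B : Finset α) : ℝ :=
  (∏ y ∈ B, p y) * ∏ y ∈ U \ B, (1 - p y)

lemma PW_nonneg (U : Finset α) (p : α → ℝ) (hp : ∀ y, 0 ≤ p y ∧ p y ≤ 1) (B : Finset α) :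
    0 ≤ PW U p B :=
  mul_nonneg (Finset.prod_nonneg fun y _ => (hp y).1)
    (Finset.prod_nonneg fun y _ => by linarith [(hp y).2])

lemma sum_PW (U : Finset α) (p : α → ℝ) : ∑ B ∈ U.powerset, PW U p B = 1 := by
  unfold PW
  rw [← Finset.prod_add]
  simp

lemma sum_PW_superset (U : Finset α) (p : α → ℝ) (Y : Finset α) (hY : Y ⊆ U) :
    ∑ B ∈ U.powerset, (if Y ⊆ B then PW U p B else 0) = ∏ y ∈ Y, p y := by
  have h1 : ∀ B ∈ U.powerset, (if Y ⊆ B then PW U p B else 0) =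
      (∏ y ∈ B, p y) * ∏ y ∈ U \ B, (if y ∈ Y then 0 else (1 - p y)) := by
    intro B hB
    by_cases h : Y ⊆ B
    · rw [if_pos h]
      unfold PW
      congr 1
      refine Finset.prod_congr rfl fun y hy => ?_
      rw [if_neg]
      intro hyY
      exact (Finset.mem_sdiff.1 hy).2 (h hyY)
    · rw [if_neg h]
      obtain ⟨y, hyY, hyB⟩ := Finset.not_subset.1 h
      have : ∏ y ∈ U \ B, (if y ∈ Y then 0 else (1 - p y)) = 0 := by
        refine Finset.prod_eq_zero (Finset.mem_sdiff.2 ⟨hY hyY, hyB⟩) ?_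
        rw [if_pos hyY]
      rw [this, mul_zero]
  rw [Finset.sum_congr rfl h1, ← Finset.prod_add]
  rw [← Finset.prod_subset hY]
  · refine Finset.prod_congr rfl fun y hy => ?_
    rw [if_pos hy, add_zero]
  · intro y _ hy
    rw [if_neg hy]
    ring

/-- second moment bound -/
lemma sum_PW_var (U : Finset α) (p : α → ℝ) (hp : ∀ y, 0 ≤ p y ∧ p y ≤ 1) (W : Finset α) (hW : W ⊆ U) :
    ∑ B ∈ U.powerset, PW U p B * (((W.filter (· ∈ B)).card : ℝ) - ∑ y ∈ W, p y) ^ 2 ≤ ∑ y ∈ W, p y := by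
  obtain ⟨μ, hμ⟩ : ∃ μ, μ = ∑ y ∈ W, p y := ⟨_, rfl⟩
  rw [← hμ]
  have hcard : ∀ B : Finset α, ((W.filter (· ∈ B)).card : ℝ) = ∑ y ∈ W, (if y ∈ B then (1:ℝ) else 0) := by
    intro B
    rw [Finset.card_filter]
    push_cast
    rfl
  have hE1 : ∑ B ∈ U.powerset, PW U p B * ((W.filter (· ∈ B)).card : ℝ) = μ := by
    simp only [hcard, Finset.mul_sum]
    rw [Finset.sum_comm, hμ]
    refine Finset.sum_congr rfl fun y hy => ?_
    have := sum_PW_superset U p {y} (Finset.singleton_subset_iff.2 (hW hy))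
    simp only [Finset.singleton_subset_iff, Finset.prod_singleton] at this
    rw [← this]
    refine Finset.sum_congr rfl fun B _ => ?_
    split_ifs <;> simp
  have hE2 : ∑ B ∈ U.powerset, PW U p B * ((W.filter (· ∈ B)).card : ℝ) ^ 2 ≤ μ ^ 2 + μ := by
    have h1 : ∀ B ∈ U.powerset, PW U p B * ((W.filter (· ∈ B)).card : ℝ) ^ 2 =
        ∑ y ∈ W, ∑ y' ∈ W, (if ({y, y'} : Finset α) ⊆ B then PW U p B else 0) := by
      intro B _
      rw [hcard, sq, Finset.sum_mul_sum, Finset.mul_sum]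
      refine Finset.sum_congr rfl fun y _ => ?_
      rw [Finset.mul_sum]
      refine Finset.sum_congr rfl fun y' _ => ?_
      by_cases h1 : y ∈ B <;> by_cases h2 : y' ∈ B <;> simp [h1, h2, Finset.insert_subset_iff]
    rw [Finset.sum_congr rfl h1, Finset.sum_comm]
    have h2 : ∀ y ∈ W, ∑ B ∈ U.powerset, ∑ y' ∈ W, (if ({y, y'} : Finset α) ⊆ B then PW U p B else 0)
        ≤ p y * μ + p y := by
      intro y hy
      rw [Finset.sum_comm]
      have h3 : ∀ y' ∈ W, ∑ B ∈ U.powerset, (if ({y, y'} : Finset α) ⊆ B then PW U p B else 0) ≤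
          p y * p y' + (if y' = y then p y else 0) := by
        intro y' hy'
        rw [sum_PW_superset U p {y, y'} (by
          intro z hz
          simp only [Finset.mem_insert, Finset.mem_singleton] at hz
          rcases hz with rfl | rfl
          · exact hW hy
          · exact hW hy')]
        by_cases h : y' = y
        · subst h
          rw [Finset.pair_eq_singleton, Finset.prod_singleton, if_pos rfl]
          nlinarith [(hp y').1]
        · rw [Finset.prod_pair (Ne.symm h), if_neg h, add_zero]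
      refine (Finset.sum_le_sum h3).trans (le_of_eq ?_)
      rw [Finset.sum_add_distrib, ← Finset.mul_sum, Finset.sum_ite_eq' W y, if_pos hy, hμ]
    refine (Finset.sum_le_sum h2).trans (le_of_eq ?_)
    rw [Finset.sum_add_distrib, ← Finset.sum_mul, sq, ← hμ]
  have h3 : ∑ B ∈ U.powerset, PW U p B * (((W.filter (· ∈ B)).card : ℝ) - μ) ^ 2 =
      (∑ B ∈ U.powerset, PW U p B * ((W.filter (· ∈ B)).card : ℝ) ^ 2) -
        2 * μ * (∑ B ∈ U.powerset, PW U p B * ((W.filter (· ∈ B)).card : ℝ)) +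
        μ ^ 2 * ∑ B ∈ U.powerset, PW U p B := by
    have h4 : ∀ B : Finset α, PW U p B * (((W.filter (· ∈ B)).card : ℝ) - μ) ^ 2 =
        PW U p B * ((W.filter (· ∈ B)).card : ℝ) ^ 2 -
          2 * μ * (PW U p B * ((W.filter (· ∈ B)).card : ℝ)) + μ ^ 2 * PW U p B := by
      intro B
      ring
    simp only [h4, Finset.sum_add_distrib, Finset.sum_sub_distrib, ← Finset.mul_sum]
  rw [h3, hE1, sum_PW]
  nlinarith

/-- union bound: a single subset which is large on each `W i` and contains few of the sets of `C i` -/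
theorem exists_good_subset {ι : Type*} (I : Finset ι) (U : Finset α) (p : α → ℝ)
    (hp : ∀ y, 0 ≤ p y ∧ p y ≤ 1) (W : ι → Finset α) (hW : ∀ i ∈ I, W i ⊆ U)
    (C : ι → Finset (Finset α)) (hC : ∀ i ∈ I, ∀ Y ∈ C i, Y ⊆ U)
    (hμ : ∀ i ∈ I, 0 < ∑ y ∈ W i, p y)
    (hsum : ∑ i ∈ I, (4 / (∑ y ∈ W i, p y) + 4 * (∑ Y ∈ C i, ∏ y ∈ Y, p y) / (∑ y ∈ W i, p y)) < 1) :
    ∃ B ⊆ U, ∀ i ∈ I, (∑ y ∈ W i, p y) / 2 ≤ (((W i).filter (· ∈ B)).card : ℝ) ∧
      (((C i).filter (· ⊆ B)).card : ℝ) ≤ (∑ y ∈ W i, p y) / 4 := by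
  by_contra hcon
  push Not at hcon
  -- the penalty function
  let F : Finset α → ℝ := fun B => ∑ i ∈ I,
    (4 * ((((W i).filter (· ∈ B)).card : ℝ) - ∑ y ∈ W i, p y) ^ 2 / (∑ y ∈ W i, p y) ^ 2 +
      4 * (((C i).filter (· ⊆ B)).card : ℝ) / (∑ y ∈ W i, p y))
  have hterm : ∀ B : Finset α, ∀ i ∈ I,
      0 ≤ 4 * ((((W i).filter (· ∈ B)).card : ℝ) - ∑ y ∈ W i, p y) ^ 2 / (∑ y ∈ W i, p y) ^ 2 +
      4 * (((C i).filter (· ⊆ B)).card : ℝ) / (∑ y ∈ W i, p y) := by
    intro B i hi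
    have := hμ i hi
    positivity
  have hF1 : ∀ B ∈ U.powerset, 1 ≤ F B := by
    intro B hB
    obtain ⟨i, hi, hbad⟩ := hcon B (Finset.mem_powerset.1 hB)
    have hμi := hμ i hi
    refine le_trans ?_ (Finset.single_le_sum (hterm B) hi)
    by_cases h : (∑ y ∈ W i, p y) / 2 ≤ (((W i).filter (· ∈ B)).card : ℝ)
    · have h2 := hbad h
      have h3 : 1 ≤ 4 * (((C i).filter (· ⊆ B)).card : ℝ) / (∑ y ∈ W i, p y) := by
        rw [le_div_iff₀ hμi]
        linarith
      have h4 : 0 ≤ 4 * ((((W i).filter (· ∈ B)).card : ℝ) - ∑ y ∈ W i, p y) ^ 2 /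
          (∑ y ∈ W i, p y) ^ 2 := by positivity
      linarith
    · push Not at h
      have h3 : 1 ≤ 4 * ((((W i).filter (· ∈ B)).card : ℝ) - ∑ y ∈ W i, p y) ^ 2 /
          (∑ y ∈ W i, p y) ^ 2 := by
        rw [le_div_iff₀ (by positivity)]
        nlinarith
      have h4 : 0 ≤ 4 * (((C i).filter (· ⊆ B)).card : ℝ) / (∑ y ∈ W i, p y) := by positivity
      linarith
  have hE : ∑ B ∈ U.powerset, PW U p B * F B ≤
      ∑ i ∈ I, (4 / (∑ y ∈ W i, p y) + 4 * (∑ Y ∈ C i, ∏ y ∈ Y, p y) / (∑ y ∈ W i, p y)) := by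
    have hF : ∀ B : Finset α, PW U p B * F B = ∑ i ∈ I, PW U p B *
        (4 * ((((W i).filter (· ∈ B)).card : ℝ) - ∑ y ∈ W i, p y) ^ 2 / (∑ y ∈ W i, p y) ^ 2 +
          4 * (((C i).filter (· ⊆ B)).card : ℝ) / (∑ y ∈ W i, p y)) := fun B => Finset.mul_sum _ _ _
    rw [Finset.sum_congr rfl fun B _ => hF B, Finset.sum_comm]
    refine Finset.sum_le_sum fun i hi => ?_
    have hμi := hμ i hi
    have e1 : ∑ B ∈ U.powerset, PW U p B *
        (4 * ((((W i).filter (· ∈ B)).card : ℝ) - ∑ y ∈ W i, p y) ^ 2 / (∑ y ∈ W i, p y) ^ 2 +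
          4 * (((C i).filter (· ⊆ B)).card : ℝ) / (∑ y ∈ W i, p y)) =
        4 / (∑ y ∈ W i, p y) ^ 2 * (∑ B ∈ U.powerset, PW U p B *
          ((((W i).filter (· ∈ B)).card : ℝ) - ∑ y ∈ W i, p y) ^ 2) +
        4 / (∑ y ∈ W i, p y) * ∑ B ∈ U.powerset, PW U p B * (((C i).filter (· ⊆ B)).card : ℝ) := by
      rw [Finset.mul_sum, Finset.mul_sum, ← Finset.sum_add_distrib]
      refine Finset.sum_congr rfl fun B _ => ?_
      ring
    have e2 : ∑ B ∈ U.powerset, PW U p B * (((C i).filter (· ⊆ B)).card : ℝ) =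
        ∑ Y ∈ C i, ∏ y ∈ Y, p y := by
      have : ∀ B : Finset α, PW U p B * (((C i).filter (· ⊆ B)).card : ℝ) =
          ∑ Y ∈ C i, (if Y ⊆ B then PW U p B else 0) := by
        intro B
        rw [Finset.card_filter]
        push_cast
        rw [Finset.mul_sum]
        refine Finset.sum_congr rfl fun Y _ => ?_
        split_ifs <;> simp
      simp only [this]
      rw [Finset.sum_comm]
      exact Finset.sum_congr rfl fun Y hY => sum_PW_superset U p Y (hC i hi Y hY)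
    rw [e1, e2]
    have h1 := sum_PW_var U p hp (W i) (hW i hi)
    have h2 : 4 / (∑ y ∈ W i, p y) ^ 2 * (∑ B ∈ U.powerset, PW U p B *
          ((((W i).filter (· ∈ B)).card : ℝ) - ∑ y ∈ W i, p y) ^ 2) ≤
        4 / (∑ y ∈ W i, p y) ^ 2 * ∑ y ∈ W i, p y :=
      mul_le_mul_of_nonneg_left h1 (by positivity)
    have h3 : 4 / (∑ y ∈ W i, p y) ^ 2 * ∑ y ∈ W i, p y = 4 / ∑ y ∈ W i, p y := by
      field_simp
    have h4 : 4 / (∑ y ∈ W i, p y) * ∑ Y ∈ C i, ∏ y ∈ Y, p y =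
        4 * (∑ Y ∈ C i, ∏ y ∈ Y, p y) / (∑ y ∈ W i, p y) := by ring
    rw [h4]
    linarith
  have hlow : 1 ≤ ∑ B ∈ U.powerset, PW U p B * F B := by
    rw [← sum_PW U p]
    refine Finset.sum_le_sum fun B hB => ?_
    exact le_mul_of_one_le_right (PW_nonneg U p hp B) (hF1 B hB)
  linarith

end Pool.Agent.Helper233_Chg
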