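import Mathlib

/-! Choice of the first block: the failure probabilities are summable. -/

open Finset

namespace Pool.Agent.Helper233_Chg

/-- bound for the failure probability of block `J` -/
noncomputable def ff (al : ℝ) (s : ℕ) (J : ℕ) : ℝ :=
  4 * (2:ℝ) ^ (-al * (J:ℝ) ^ 2 + 17 * J) + 8 * 2 ^ s * ((J:ℝ) + 1) ^ (s + 1) * (1 / 2) ^ J

lemma ff_nonneg (al : ℝ) (s J : ℕ) : 0 ≤ ff al s J := by
  unfold ff
  have : 0 < (2:ℝ) ^ (-al * (J:ℝ) ^ 2 + 17 * J) := Real.rpow_pos_of_pos (by norm_num) _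
  positivity

lemma summable_ff {al : ℝ} (hal : 0 < al) (s : ℕ) : Summable (ff al s) := by
  unfold ff
  refine Summable.add (Summable.mul_left _ ?_) ?_
  · -- compare with (1/2)^J
    have hg : Summable (fun J : ℕ => ((1:ℝ) / 2) ^ J) := summable_geometric_two
    obtain ⟨N, hN⟩ := exists_nat_ge (18 / al)
    refine Summable.of_norm_bounded_eventually_nat hg ?_
    filter_upwards [Filter.eventually_ge_atTop N] with J hJ
    have hJR : (N:ℝ) ≤ J := by exact_mod_cast hJ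
    have h1 : 18 ≤ al * J := by
      have : 18 / al ≤ (J:ℝ) := hN.trans hJR
      rw [div_le_iff₀ hal] at this
      linarith
    have hJ0 : (0:ℝ) ≤ J := Nat.cast_nonneg _
    rw [Real.norm_of_nonneg (Real.rpow_pos_of_pos (by norm_num) _).le]
    have h2 : ((1:ℝ) / 2) ^ J = (2:ℝ) ^ (-(J:ℝ)) := by
      rw [Real.rpow_neg (by norm_num), Real.rpow_natCast]
      simp
    rw [h2]
    apply Real.rpow_le_rpow_of_exponent_le (by norm_num)
    nlinarith
  · have h1 : Summable (fun n : ℕ => ((n:ℝ)) ^ (s + 1) * ((1:ℝ) / 2) ^ n) :=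
      summable_pow_mul_geometric_of_norm_lt_one (s + 1) (by norm_num)
    have h2 : Summable (fun n : ℕ => (((n + 1 : ℕ):ℝ)) ^ (s + 1) * ((1:ℝ) / 2) ^ (n + 1)) :=
      (summable_nat_add_iff 1).2 h1
    have h3 := h2.mul_left (16 * 2 ^ s)
    refine h3.congr fun n => ?_
    push_cast
    rw [pow_succ ((1:ℝ) / 2) n]
    ring

lemma exists_J0 {al : ℝ} (hal : 0 < al) (s : ℕ) :
    ∃ J0 : ℕ, 2 ≤ J0 ∧ ∀ n : ℕ, ∑ J ∈ Finset.Icc J0 n, ff al s J < 1 := by
  have hs := summable_ff hal s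
  have ht := tendsto_sum_nat_add (ff al s)
  have h1 : ∀ᶠ i in Filter.atTop, ∑' k, ff al s (k + i) < 1 := ht.eventually (gt_mem_nhds one_pos)
  obtain ⟨J0, h2, h3⟩ := (h1.and (Filter.eventually_ge_atTop 2)).exists
  refine ⟨J0, h3, fun n => lt_of_le_of_lt ?_ h2⟩
  have h4 : Summable (fun k => ff al s (k + J0)) := (summable_nat_add_iff J0).2 hs
  have h5 := h4.sum_le_tsum (Finset.range (n + 1 - J0)) (fun k _ => ff_nonneg al s _)
  refine le_trans (le_of_eq ?_) h5
  rw [← Finset.Ico_add_one_right_eq_Icc, Finset.sum_Ico_eq_sum_range]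
  exact Finset.sum_congr rfl fun k _ => by rw [add_comm]

end Pool.Agent.Helper233_Chg
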