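import Mathlib
import Pool.Agent.Helper233_Chg.Blocks
import Pool.Agent.Helper233_Chg.Struct
import Pool.Agent.Helper233_Chg.Prob
import Pool.Agent.Helper233_Chg.Count
import Pool.Agent.Helper233_Chg.Tail

/-! Dense infinite sequences without `g` translates of an `h`-element set. -/

open Finset

namespace Pool.Agent.Helper233_Chg

lemma exists_family : ∃ R : ℕ → Finset ℤ, BlockFam R ∧
    ∀ j : ℕ, 2 ≤ j → (2:ℝ) ^ ((j:ℝ) ^ 2 - 8 * j) ≤ (R j).card := by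
  classical
  choose! R hR1 hR2 hR3 hR4 using exists_block
  exact ⟨R, ⟨hR1, hR2, hR3⟩, hR4⟩

lemma block_uniq {R : ℕ → Finset ℤ} (hR : BlockFam R) : ∀ i j y, 2 ≤ i → 2 ≤ j → y ∈ R i → y ∈ R j → i = j := by
  intro i j y hi hj h1 h2
  have e1 := hR.range i hi y h1
  have e2 := hR.range j hj y h2
  rw [← blkIdx_eq e1.1 e1.2, ← blkIdx_eq e2.1 e2.2]

lemma block_le {R : ℕ → Finset ℤ} (hR : BlockFam R) {i j : ℕ} {y z : ℤ} (hi : 2 ≤ i) (hj : 2 ≤ j)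
    (hy : y ∈ R i) (hz : z ∈ R j) (h : y ≤ z) : i ≤ j := by
  by_contra hcon
  push Not at hcon
  have e1 := (hR.range i hi y hy).1
  have e2 := (hR.range j hj z hz).2
  have h3 : (2:ℤ) ^ (j ^ 2 + 1) ≤ 2 ^ (i ^ 2) := pow_le_pow_right₀ (by norm_num) (by nlinarith)
  linarith

/-- the sum sets with largest block `J` -/
noncomputable def CC (R : ℕ → Finset ℤ) (m l J0 J : ℕ) : Finset (Finset ℤ) :=
  rowSets R m l J0 J ∪ rowSets R l m J0 J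

lemma rowSets_subset {R : ℕ → Finset ℤ} {m l J0 J : ℕ} {Y : Finset ℤ} (hY : Y ∈ rowSets R m l J0 J) :
    Y ⊆ (Finset.Icc J0 J).biUnion R := by
  unfold rowSets at hY
  obtain ⟨ρ, hρ, hY⟩ := Finset.mem_biUnion.1 hY
  obtain ⟨t, ht, rfl⟩ := Finset.mem_image.1 hY
  have h1 := (Finset.mem_filter.1 ht).2.1
  intro y hy
  obtain ⟨⟨a, b⟩, _, rfl⟩ := Finset.mem_image.1 hy
  exact Finset.mem_biUnion.2 ⟨ρ a, Fintype.mem_piFinset.1 (Finset.mem_filter.1 hρ).1 a, h1 a b⟩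

lemma CC_subset {R : ℕ → Finset ℤ} {m l J0 J : ℕ} {Y : Finset ℤ} (hY : Y ∈ CC R m l J0 J) :
    Y ⊆ (Finset.Icc J0 J).biUnion R := by
  rcases Finset.mem_union.1 hY with h | h
  · exact rowSets_subset h
  · exact rowSets_subset h

lemma mu_eq {R : ℕ → Finset ℤ} (hR : BlockFam R) (β : ℝ) {J : ℕ} (hJ : 2 ≤ J) :
    ∑ y ∈ R J, pj β (blkIdx y) = (R J).card * pj β J := by
  have : ∀ y ∈ R J, pj β (blkIdx y) = pj β J := by
    intro y hy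
    have h := hR.range J hJ y hy
    rw [blkIdx_eq h.1 h.2]
  rw [Finset.sum_congr rfl this, Finset.sum_const, nsmul_eq_mul]

lemma mu_ge {R : ℕ → Finset ℤ} (hR : BlockFam R) (hcard : ∀ j : ℕ, 2 ≤ j → (2:ℝ) ^ ((j:ℝ) ^ 2 - 8 * j) ≤ (R j).card)
    {m l : ℕ} (hm : 1 ≤ m) {J : ℕ} (hJ : 2 ≤ J) :
    (2:ℝ) ^ (alf m l * (J:ℝ) ^ 2 - 17 * J) ≤ ∑ y ∈ R J, pj (bet m l) (blkIdx y) := by
  rw [mu_eq hR _ hJ]
  refine le_trans (le_of_eq ?_) (mul_le_mul_of_nonneg_right (hcard J hJ) (pj_pos _ _).le)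
  unfold pj
  rw [← Real.rpow_add (by norm_num)]
  congr 1
  have := alf_add_bet (l := l) hm
  have h2 : alf m l = 1 - bet m l := by linarith
  rw [h2]
  ring

lemma sum_CC_le {R : ℕ → Finset ℤ} (hR : BlockFam R) {m l : ℕ} (hm : 1 ≤ m) (hl : 1 ≤ l) {J0 J : ℕ}
    (hJ0 : 2 ≤ J0) :
    ∑ Y ∈ CC R m l J0 J, ∏ y ∈ Y, pj (bet m l) (blkIdx y) ≤
      2 * (((J:ℝ) + 1) ^ (m + l + 1) * (2:ℝ) ^ ((m + l : ℝ) + alf m l * (J:ℝ) ^ 2 - 18 * J)) := by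
  have hnn : ∀ Y : Finset ℤ, 0 ≤ ∏ y ∈ Y, pj (bet m l) (blkIdx y) :=
    fun Y => Finset.prod_nonneg fun y _ => (pj_pos _ _).le
  have h0 : ∑ Y ∈ CC R m l J0 J, ∏ y ∈ Y, pj (bet m l) (blkIdx y) ≤
      ∑ Y ∈ rowSets R m l J0 J, ∏ y ∈ Y, pj (bet m l) (blkIdx y) +
      ∑ Y ∈ rowSets R l m J0 J, ∏ y ∈ Y, pj (bet m l) (blkIdx y) := by
    have h1 := Finset.sum_union_inter (s₁ := rowSets R m l J0 J) (s₂ := rowSets R l m J0 J)
      (f := fun Y => ∏ y ∈ Y, pj (bet m l) (blkIdx y))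
    have h2 : 0 ≤ ∑ Y ∈ rowSets R m l J0 J ∩ rowSets R l m J0 J, ∏ y ∈ Y, pj (bet m l) (blkIdx y) :=
      Finset.sum_nonneg fun b _ => hnn b
    unfold CC
    linarith
  have h1 := sum_rowSets_le hR hm hl (J := J) hJ0
  have h2 := sum_rowSets_le hR hl hm (J := J) hJ0
  rw [bet_comm l m, alf_comm l m] at h2
  have hJ1 : (1:ℝ) ≤ (J:ℝ) + 1 := by
    have : (0:ℝ) ≤ J := Nat.cast_nonneg _
    linarith
  have hm0 : (0:ℝ) ≤ m := Nat.cast_nonneg _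
  have hl0 : (0:ℝ) ≤ l := Nat.cast_nonneg _
  have h3 : ((J:ℝ) + 1) ^ (m + 1) * (2:ℝ) ^ ((l:ℝ) + alf m l * (J:ℝ) ^ 2 - 18 * J) ≤
      ((J:ℝ) + 1) ^ (m + l + 1) * (2:ℝ) ^ ((m + l : ℝ) + alf m l * (J:ℝ) ^ 2 - 18 * J) := by
    refine mul_le_mul (pow_le_pow_right₀ hJ1 (by omega)) ?_ (Real.rpow_pos_of_pos (by norm_num) _).le
      (by positivity)
    exact Real.rpow_le_rpow_of_exponent_le (by norm_num) (by linarith)
  have h4 : ((J:ℝ) + 1) ^ (l + 1) * (2:ℝ) ^ ((m:ℝ) + alf m l * (J:ℝ) ^ 2 - 18 * J) ≤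
      ((J:ℝ) + 1) ^ (m + l + 1) * (2:ℝ) ^ ((m + l : ℝ) + alf m l * (J:ℝ) ^ 2 - 18 * J) := by
    refine mul_le_mul (pow_le_pow_right₀ hJ1 (by omega)) ?_ (Real.rpow_pos_of_pos (by norm_num) _).le
      (by positivity)
    exact Real.rpow_le_rpow_of_exponent_le (by norm_num) (by linarith)
  linarith

lemma penalty_le {R : ℕ → Finset ℤ} (hR : BlockFam R)
    (hcard : ∀ j : ℕ, 2 ≤ j → (2:ℝ) ^ ((j:ℝ) ^ 2 - 8 * j) ≤ (R j).card)
    {m l : ℕ} (hm : 1 ≤ m) (hl : 1 ≤ l) {J0 J : ℕ} (hJ0 : 2 ≤ J0) (hJ : 2 ≤ J) :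
    4 / (∑ y ∈ R J, pj (bet m l) (blkIdx y)) +
      4 * (∑ Y ∈ CC R m l J0 J, ∏ y ∈ Y, pj (bet m l) (blkIdx y)) / (∑ y ∈ R J, pj (bet m l) (blkIdx y)) ≤
      ff (alf m l) (m + l) J := by
  have h1 := mu_ge hR hcard (l := l) hm hJ
  have h2 := sum_CC_le hR hm hl (J := J) hJ0
  set μ := ∑ y ∈ R J, pj (bet m l) (blkIdx y) with hμ
  set S := ∑ Y ∈ CC R m l J0 J, ∏ y ∈ Y, pj (bet m l) (blkIdx y) with hS
  set ν := (2:ℝ) ^ (alf m l * (J:ℝ) ^ 2 - 17 * J) with hν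
  have hν0 : 0 < ν := Real.rpow_pos_of_pos (by norm_num) _
  have hμ0 : 0 < μ := lt_of_lt_of_le hν0 h1
  have hS0 : 0 ≤ S := Finset.sum_nonneg fun Y _ => Finset.prod_nonneg fun y _ => (pj_pos _ _).le
  unfold ff
  refine add_le_add ?_ ?_
  · have h3 : 4 / μ ≤ 4 / ν := div_le_div_of_nonneg_left (by norm_num) hν0 h1
    refine h3.trans (le_of_eq ?_)
    rw [div_eq_mul_inv, hν, ← Real.rpow_neg (by norm_num)]
    congr 2
    ring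
  · have h3 : 4 * S / μ ≤ 4 * S / ν := div_le_div_of_nonneg_left (by positivity) hν0 h1
    refine h3.trans ?_
    rw [div_le_iff₀ hν0]
    have h4 : (2:ℝ) ^ ((m + l : ℝ) + alf m l * (J:ℝ) ^ 2 - 18 * J) = 2 ^ (m + l) * (1 / 2) ^ J * ν := by
      have e1 : ((2:ℝ) ^ (m + l) : ℝ) = (2:ℝ) ^ ((m:ℝ) + l) := by
        rw [← Real.rpow_natCast]
        push_cast
        rfl
      have e2 : ((1:ℝ) / 2) ^ J = (2:ℝ) ^ (-(J:ℝ)) := by
        rw [Real.rpow_neg (by norm_num), Real.rpow_natCast]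
        simp
      rw [e1, e2, hν, ← Real.rpow_add (by norm_num), ← Real.rpow_add (by norm_num)]
      congr 1
      ring
    rw [h4] at h2
    calc 4 * S ≤ 4 * (2 * (((J:ℝ) + 1) ^ (m + l + 1) * (2 ^ (m + l) * (1 / 2) ^ J * ν))) := by linarith
      _ = _ := by ring

/-- one finite stage -/
lemma stage {R : ℕ → Finset ℤ} (hR : BlockFam R)
    (hcard : ∀ j : ℕ, 2 ≤ j → (2:ℝ) ^ ((j:ℝ) ^ 2 - 8 * j) ≤ (R j).card)
    {m l : ℕ} (hm : 1 ≤ m) (hl : 1 ≤ l) {J0 : ℕ} (hJ0 : 2 ≤ J0)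
    (hsum : ∀ n : ℕ, ∑ J ∈ Finset.Icc J0 n, ff (alf m l) (m + l) J < 1) (n : ℕ) :
    ∃ B ⊆ (Finset.Icc J0 n).biUnion R, ∀ J ∈ Finset.Icc J0 n,
      (∑ y ∈ R J, pj (bet m l) (blkIdx y)) / 2 ≤ (((R J).filter (· ∈ B)).card : ℝ) ∧
      (((CC R m l J0 J).filter (· ⊆ B)).card : ℝ) ≤ (∑ y ∈ R J, pj (bet m l) (blkIdx y)) / 4 := by
  refine exists_good_subset (Finset.Icc J0 n) ((Finset.Icc J0 n).biUnion R)
    (fun y => pj (bet m l) (blkIdx y)) (fun y => ⟨(pj_pos _ _).le, pj_le_one (bet_nonneg m l) _⟩)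
    R ?_ (CC R m l J0) ?_ ?_ ?_
  · intro J hJ
    exact Finset.subset_biUnion_of_mem R hJ
  · intro J hJ Y hY
    refine (CC_subset hY).trans (Finset.biUnion_subset_biUnion_of_subset_left _ ?_)
    exact Finset.Icc_subset_Icc_right (Finset.mem_Icc.1 hJ).2
  · intro J hJ
    exact lt_of_lt_of_le (Real.rpow_pos_of_pos (by norm_num) _)
      (mu_ge hR hcard hm (hJ0.trans (Finset.mem_Icc.1 hJ).1))
  · refine lt_of_le_of_lt (Finset.sum_le_sum fun J hJ => ?_) (hsum n)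
    exact penalty_le hR hcard hm hl hJ0 (hJ0.trans (Finset.mem_Icc.1 hJ).1)

open Classical in
/-- the limit set -/
lemma limit_set {R : ℕ → Finset ℤ} (hR : BlockFam R)
    (hcard : ∀ j : ℕ, 2 ≤ j → (2:ℝ) ^ ((j:ℝ) ^ 2 - 8 * j) ≤ (R j).card)
    {m l : ℕ} (hm : 1 ≤ m) (hl : 1 ≤ l) {J0 : ℕ} (hJ0 : 2 ≤ J0)
    (hsum : ∀ n : ℕ, ∑ J ∈ Finset.Icc J0 n, ff (alf m l) (m + l) J < 1) :
    ∃ A0 : Set ℤ, (∀ y ∈ A0, ∃ j, J0 ≤ j ∧ y ∈ R j) ∧ ∀ J, J0 ≤ J →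
      (∑ y ∈ R J, pj (bet m l) (blkIdx y)) / 2 ≤ (((R J).filter (· ∈ A0)).card : ℝ) ∧
      (((CC R m l J0 J).filter (fun Y => ∀ y ∈ Y, y ∈ A0)).card : ℝ) ≤
        (∑ y ∈ R J, pj (bet m l) (blkIdx y)) / 4 := by
  choose B hB1 hB2 using stage hR hcard hm hl hJ0 hsum
  let F : Ultrafilter ℕ := Filter.hyperfilter ℕ
  refine ⟨{y | ∀ᶠ n in (F : Filter ℕ), y ∈ B n}, ?_, ?_⟩
  · intro y hy
    obtain ⟨n, hn⟩ := hy.exists
    obtain ⟨j, hj, hyj⟩ := Finset.mem_biUnion.1 (hB1 n hn)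
    exact ⟨j, (Finset.mem_Icc.1 hj).1, hyj⟩
  · intro J hJ
    have h1 : ∀ᶠ n in (F : Filter ℕ), ∀ y ∈ (Finset.Icc J0 J).biUnion R,
        (y ∈ B n ↔ ∀ᶠ n in (F : Filter ℕ), y ∈ B n) := by
      rw [Filter.eventually_all_finset]
      intro y _
      by_cases hy : ∀ᶠ n in (F : Filter ℕ), y ∈ B n
      · filter_upwards [hy] with n hn
        exact ⟨fun _ => hy, fun _ => hn⟩
      · have hy' : ∀ᶠ n in (F : Filter ℕ), ¬ y ∈ B n := Ultrafilter.eventually_not.2 hy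
        filter_upwards [hy'] with n hn
        exact ⟨fun h => absurd h hn, fun h => absurd h hy⟩
    have h2 : ∀ᶠ n in (F : Filter ℕ), J ≤ n := by
      have : (F : Filter ℕ) ≤ Filter.atTop := by
        rw [← Nat.cofinite_eq_atTop]
        exact Filter.hyperfilter_le_cofinite
      exact this (Filter.eventually_ge_atTop J)
    obtain ⟨n, hn1, hn2⟩ := (h1.and h2).exists
    have h3 := hB2 n J (Finset.mem_Icc.2 ⟨hJ, hn2⟩)
    have h4 : (R J).filter (· ∈ B n) = (R J).filter (· ∈ {y | ∀ᶠ n in (F : Filter ℕ), y ∈ B n}) := by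
      refine Finset.filter_congr fun y hy => ?_
      exact hn1 y (Finset.mem_biUnion.2 ⟨J, Finset.mem_Icc.2 ⟨hJ, le_rfl⟩, hy⟩)
    have h5 : (CC R m l J0 J).filter (· ⊆ B n) =
        (CC R m l J0 J).filter (fun Y => ∀ y ∈ Y, y ∈ {y | ∀ᶠ n in (F : Filter ℕ), y ∈ B n}) := by
      refine Finset.filter_congr fun Y hY => ?_
      constructor
      · intro h y hy
        exact (hn1 y (CC_subset hY hy)).1 (h hy)
      · intro h y hy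
        exact (hn1 y (CC_subset hY hy)).2 (h y hy)
    rw [← h4, ← h5]
    exact h3

end Pool.Agent.Helper233_Chg
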