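import Mathlib
import Pool.Agent.Helper233_Chg.Main

/-! Deletion and growth. -/

open Finset

namespace Pool.Agent.Helper233_Chg

/-- a configuration inside `A0` with largest sum `y` -/
def BadAt (m l : ℕ) (A0 : Set ℤ) (y : ℤ) : Prop :=
  ∃ (x : Fin (m + 1) → ℤ) (k : Fin (l + 1) → ℤ), Function.Injective x ∧ Function.Injective k ∧
    (∀ a b, x a + k b ∈ A0) ∧ (∀ a b, x a + k b ≤ y) ∧ ∃ a b, x a + k b = y

/-- a row-type configuration gives an element of `rowSets` -/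
lemma mem_rowSets {R : ℕ → Finset ℤ} (hR : BlockFam R) {m l J0 J : ℕ} (hJ0 : 2 ≤ J0) (hJ : J0 ≤ J)
    {x : Fin (m + 1) → ℤ} {k : Fin (l + 1) → ℤ} (ρ : Fin (m + 1) → ℕ) (hρ : ∀ a, J0 ≤ ρ a)
    (hmem : ∀ a b, x a + k b ∈ R (ρ a))
    (hinj : ∀ a b c d, x a + k b = x c + k d → a = c ∧ b = d)
    {y : ℤ} (hy : y ∈ R J) (hle : ∀ a b, x a + k b ≤ y) (hex : ∃ a b, x a + k b = y) :
    (Finset.univ : Finset (Fin (m + 1) × Fin (l + 1))).image (fun ab => x ab.1 + k ab.2) ∈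
      rowSets R m l J0 J := by
  have hρ2 : ∀ a, 2 ≤ ρ a := fun a => hJ0.trans (hρ a)
  have hJ2 : 2 ≤ J := hJ0.trans hJ
  unfold rowSets
  refine Finset.mem_biUnion.2 ⟨ρ, ?_, ?_⟩
  · refine Finset.mem_filter.2 ⟨Fintype.mem_piFinset.2 fun a => Finset.mem_Icc.2 ⟨hρ a, ?_⟩, ?_⟩
    · exact block_le hR (hρ2 a) hJ2 (hmem a 0) hy (hle a 0)
    · obtain ⟨a, b, hab⟩ := hex
      exact ⟨a, block_uniq hR _ _ y (hρ2 a) hJ2 (hab ▸ hmem a b) hy⟩
  · refine Finset.mem_image.2 ⟨(fun a => x a + k 0, fun b => k b - k 0), ?_, ?_⟩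
    · refine Finset.mem_filter.2 ⟨Finset.mem_product.2 ⟨?_, ?_⟩, ?_, ?_⟩
      · exact Fintype.mem_piFinset.2 fun a => hmem a 0
      · refine Fintype.mem_piFinset.2 fun b => ?_
        by_cases hb : b = 0
        · subst hb
          simp
        · simp only [if_neg hb]
          obtain ⟨a, _, ha⟩ := Finset.exists_mem_eq_inf' (Finset.univ_nonempty (α := Fin (m + 1))) ρ
          rw [ha, Finset.mem_Ioo]
          have h1 := hR.range (ρ a) (hρ2 a) _ (hmem a 0)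
          have h2 := hR.range (ρ a) (hρ2 a) _ (hmem a b)
          have h3 : (2:ℤ) ^ (ρ a ^ 2 + 1) = 2 ^ (ρ a ^ 2) + 2 ^ (ρ a ^ 2) := by rw [pow_succ]; ring
          rw [h3] at h1 h2
          constructor <;> linarith [h1.1, h1.2, h2.1, h2.2]
      · intro a b
        have : x a + k 0 + (k b - k 0) = x a + k b := by ring
        simp only [this]
        exact hmem a b
      · intro a b c d h
        refine hinj a b c d ?_
        simp only at h
        linarith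
    · unfold Ymap
      refine Finset.image_congr fun ab _ => ?_
      simp only
      ring

/-- a configuration in `A0` with largest sum in block `J` gives an element of `CC` -/
lemma bad_gives {R : ℕ → Finset ℤ} (hR : BlockFam R) {m l J0 J : ℕ} (hJ0 : 2 ≤ J0) (hJ : J0 ≤ J)
    {A0 : Set ℤ} (hA0 : ∀ y ∈ A0, ∃ j, J0 ≤ j ∧ y ∈ R j) {y : ℤ} (hy : y ∈ R J)
    (hbad : BadAt m l A0 y) :
    ∃ Y ∈ CC R m l J0 J, (∀ z ∈ Y, z ∈ A0) ∧ (∀ z ∈ Y, z ≤ y) ∧ y ∈ Y := by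
  obtain ⟨x, k, hx, hk, hmem, hle, hex⟩ := hbad
  have hch : ∀ a b, ∃ j, J0 ≤ j ∧ x a + k b ∈ R j := fun a b => hA0 _ (hmem a b)
  choose Jb hJb1 hJb2 using hch
  have hJb3 : ∀ a b, 2 ≤ Jb a b := fun a b => hJ0.trans (hJb1 a b)
  have hinj : ∀ a b c d, x a + k b = x c + k d → a = c ∧ b = d := fun a b c d h =>
    sums_inj hR x k hx hk Jb hJb3 hJb2 (block_uniq hR) h
  refine ⟨(Finset.univ : Finset (Fin (m + 1) × Fin (l + 1))).image (fun ab => x ab.1 + k ab.2), ?_, ?_, ?_, ?_⟩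
  · rcases row_or_col hR x k Jb hJb3 hJb2 with hrow | hcol
    · refine Finset.mem_union_left _ ?_
      refine mem_rowSets hR hJ0 hJ (fun a => Jb a 0) (fun a => hJb1 a 0) (fun a b => ?_) hinj hy hle hex
      rw [hrow a 0 b]
      exact hJb2 a b
    · refine Finset.mem_union_right _ ?_
      have h1 := mem_rowSets hR (x := k) (k := x) hJ0 hJ (fun b => Jb 0 b) (fun b => hJb1 0 b)
        (fun b a => by
          rw [hcol 0 a b, add_comm]
          exact hJb2 a b)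
        (fun b a d c h => by
          have := hinj a b c d (by linarith)
          exact ⟨this.2, this.1⟩) hy (fun b a => by rw [add_comm]; exact hle a b)
        (by
          obtain ⟨a, b, hab⟩ := hex
          exact ⟨b, a, by rw [add_comm]; exact hab⟩)
      convert h1 using 1
      ext z
      simp only [Finset.mem_image, Finset.mem_univ, true_and, Prod.exists]
      constructor
      · rintro ⟨a, b, h⟩
        exact ⟨b, a, by rw [add_comm]; exact h⟩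
      · rintro ⟨b, a, h⟩
        exact ⟨a, b, by rw [add_comm]; exact h⟩
  · intro z hz
    obtain ⟨⟨a, b⟩, _, rfl⟩ := Finset.mem_image.1 hz
    exact hmem a b
  · intro z hz
    obtain ⟨⟨a, b⟩, _, rfl⟩ := Finset.mem_image.1 hz
    exact hle a b
  · obtain ⟨a, b, hab⟩ := hex
    exact Finset.mem_image.2 ⟨(a, b), Finset.mem_univ _, hab⟩

open Classical in
/-- after deletion at least a quarter of the expected size remains -/
lemma card_remaining {R : ℕ → Finset ℤ} (hR : BlockFam R) {m l J0 J : ℕ} (hJ0 : 2 ≤ J0) (hJ : J0 ≤ J)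
    {A0 : Set ℤ} (hA0 : ∀ y ∈ A0, ∃ j, J0 ≤ j ∧ y ∈ R j) {μ : ℝ}
    (h1 : μ / 2 ≤ (((R J).filter (· ∈ A0)).card : ℝ))
    (h2 : (((CC R m l J0 J).filter (fun Y => ∀ y ∈ Y, y ∈ A0)).card : ℝ) ≤ μ / 4) :
    μ / 4 ≤ (((R J).filter (fun y => y ∈ A0 ∧ ¬ BadAt m l A0 y)).card : ℝ) := by
  have h3 : ((R J).filter (fun y => y ∈ A0 ∧ BadAt m l A0 y)).card ≤
      ((CC R m l J0 J).filter (fun Y => ∀ y ∈ Y, y ∈ A0)).card := by
    have hsub : (R J).filter (fun y => y ∈ A0 ∧ BadAt m l A0 y) ⊆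
        ((CC R m l J0 J).filter (fun Y => ∀ y ∈ Y, y ∈ A0)).image
          (fun Y => if h : Y.Nonempty then Y.max' h else 0) := by
      intro y hy
      obtain ⟨hyJ, hyA, hyB⟩ := Finset.mem_filter.1 hy
      obtain ⟨Y, hY1, hY2, hY3, hY4⟩ := bad_gives hR hJ0 hJ hA0 hyJ hyB
      refine Finset.mem_image.2 ⟨Y, Finset.mem_filter.2 ⟨hY1, hY2⟩, ?_⟩
      rw [dif_pos ⟨y, hY4⟩]
      exact le_antisymm (Finset.max'_le _ _ _ hY3) (Finset.le_max' _ _ hY4)
    exact (Finset.card_le_card hsub).trans Finset.card_image_le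
  have h4 : ((R J).filter (· ∈ A0)).card =
      ((R J).filter (fun y => y ∈ A0 ∧ BadAt m l A0 y)).card +
      ((R J).filter (fun y => y ∈ A0 ∧ ¬ BadAt m l A0 y)).card := by
    rw [← Finset.filter_filter, ← Finset.filter_filter, Finset.card_filter_add_card_filter_not]
  have h5 : (((R J).filter (· ∈ A0)).card : ℝ) =
      (((R J).filter (fun y => y ∈ A0 ∧ BadAt m l A0 y)).card : ℝ) +
      (((R J).filter (fun y => y ∈ A0 ∧ ¬ BadAt m l A0 y)).card : ℝ) := by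
    exact_mod_cast h4
  have h6 : (((R J).filter (fun y => y ∈ A0 ∧ BadAt m l A0 y)).card : ℝ) ≤
      (((CC R m l J0 J).filter (fun Y => ∀ y ∈ Y, y ∈ A0)).card : ℝ) := by
    exact_mod_cast h3
  linarith

/-- the deleted set contains no configuration -/
lemma no_config {m l : ℕ} {A0 : Set ℤ} (X : Finset ℤ) (hX : X.card = m + 1) (k : Fin (l + 1) → ℤ)
    (hk : Function.Injective k) :
    ¬ ∀ i, ∀ x ∈ X, x + k i ∈ {y | y ∈ A0 ∧ ¬ BadAt m l A0 y} := by
  intro h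
  let x : Fin (m + 1) → ℤ := X.orderEmbOfFin hX
  have hxX : ∀ a, x a ∈ X := fun a => Finset.orderEmbOfFin_mem X hX a
  have hx : Function.Injective x := (X.orderEmbOfFin hX).injective
  obtain ⟨⟨a0, b0⟩, h0⟩ := Finite.exists_max (fun ab : Fin (m + 1) × Fin (l + 1) => x ab.1 + k ab.2)
  refine (h b0 (x a0) (hxX a0)).2 ⟨x, k, hx, hk, fun a b => (h b (x a) (hxX a)).1, fun a b => h0 (a, b),
    a0, b0, rfl⟩

open Classical in
/-- growth of a set which is large in every block -/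
lemma growth {R : ℕ → Finset ℤ} (hR : BlockFam R) {A : Set ℤ} {J0 : ℕ} (hJ0 : 2 ≤ J0) {al : ℝ}
    (hal : 0 < al)
    (hA : ∀ J, J0 ≤ J → (2:ℝ) ^ (al * (J:ℝ) ^ 2 - 17 * J) / 4 ≤ (((R J).filter (· ∈ A)).card : ℝ))
    (ε : ℝ) (hε : 0 < ε) :
    ∀ᶠ n : ℕ in Filter.atTop, (n:ℝ) ^ (al - ε) ≤ ((A ∩ Set.Icc (1 : ℤ) (n : ℤ)).ncard : ℝ) := by
  -- it is enough to treat ε ≤ al
  obtain ⟨N, hN⟩ := exists_nat_ge ((2 * al + 20) / min ε al)
  have hea : 0 < min ε al := lt_min hε hal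
  filter_upwards [Filter.eventually_ge_atTop (2 ^ ((max N J0 + 1) ^ 2 + 1))] with n hn
  -- choose the largest J with 2^(J^2+1) ≤ n
  have hex : ∃ J, n < 2 ^ ((J + 1) ^ 2 + 1) := by
    refine ⟨n, ?_⟩
    calc n < 2 ^ n := Nat.lt_two_pow_self
      _ ≤ 2 ^ ((n + 1) ^ 2 + 1) := Nat.pow_le_pow_right (by norm_num) (by nlinarith)
  obtain ⟨J, hJ1, hJ2⟩ : ∃ J, n < 2 ^ ((J + 1) ^ 2 + 1) ∧ 2 ^ (J ^ 2 + 1) ≤ n := by
    classical
    refine ⟨Nat.find hex, Nat.find_spec hex, ?_⟩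
    by_cases h0 : Nat.find hex = 0
    · rw [h0]
      refine le_trans ?_ hn
      exact Nat.pow_le_pow_right (by norm_num) (by omega)
    · obtain ⟨J', hJ'⟩ := Nat.exists_eq_succ_of_ne_zero h0
      have h1 := Nat.find_min hex (m := J') (by omega)
      rw [hJ']
      push Not at h1
      exact h1
  have hJN : max N J0 ≤ J := by
    by_contra hcon
    push Not at hcon
    have : 2 ^ ((J + 1) ^ 2 + 1) ≤ 2 ^ ((max N J0 + 1) ^ 2 + 1) :=
      Nat.pow_le_pow_right (by norm_num) (by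
        have : (J + 1) ^ 2 ≤ (max N J0 + 1) ^ 2 := Nat.pow_le_pow_left (by omega) 2
        omega)
    omega
  have hJJ0 : J0 ≤ J := (le_max_right _ _).trans hJN
  have hJN' : N ≤ J := (le_max_left _ _).trans hJN
  have hJ2' : 2 ≤ J := hJ0.trans hJJ0
  have h1 := hA J hJJ0
  have h2 : (((R J).filter (· ∈ A)).card : ℝ) ≤ ((A ∩ Set.Icc (1 : ℤ) (n : ℤ)).ncard : ℝ) := by
    have hsub : (((R J).filter (· ∈ A) : Finset ℤ) : Set ℤ) ⊆ A ∩ Set.Icc (1 : ℤ) (n : ℤ) := by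
      intro y hy
      obtain ⟨hy1, hy2⟩ := Finset.mem_filter.1 (Finset.mem_coe.1 hy)
      have h3 := hR.range J hJ2' y hy1
      refine ⟨hy2, ?_, ?_⟩
      · have : (0:ℤ) < 2 ^ (J ^ 2) := by positivity
        linarith [h3.1]
      · have : ((2 ^ (J ^ 2 + 1) : ℕ) : ℤ) ≤ (n : ℤ) := by exact_mod_cast hJ2
        push_cast at this
        linarith [h3.2]
    have hfin : (A ∩ Set.Icc (1 : ℤ) (n : ℤ)).Finite := (Set.finite_Icc _ _).subset Set.inter_subset_right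
    have h4 := Set.ncard_le_ncard hsub hfin
    rw [Set.ncard_coe_finset] at h4
    exact_mod_cast h4
  refine le_trans ?_ (h1.trans h2)
  -- numeric inequality
  have hn1 : (1:ℝ) ≤ n := by
    have : 1 ≤ n := le_trans Nat.one_le_two_pow hJ2
    exact_mod_cast this
  set δ := min ε al with hδ
  have hδε : δ ≤ ε := min_le_left _ _
  have hδa : δ ≤ al := min_le_right _ _
  have h3 : (n:ℝ) ^ (al - ε) ≤ (n:ℝ) ^ (al - δ) := Real.rpow_le_rpow_of_exponent_le hn1 (by linarith)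
  refine h3.trans ?_
  have hn2 : (n:ℝ) ≤ (2:ℝ) ^ (((J:ℝ) + 1) ^ 2 + 1) := by
    have h4 : (n:ℝ) ≤ ((2 ^ ((J + 1) ^ 2 + 1) : ℕ) : ℝ) := by exact_mod_cast hJ1.le
    refine h4.trans (le_of_eq ?_)
    push_cast
    rw [← Real.rpow_natCast]
    push_cast
    rfl
  have h5 : (n:ℝ) ^ (al - δ) ≤ ((2:ℝ) ^ (((J:ℝ) + 1) ^ 2 + 1)) ^ (al - δ) :=
    Real.rpow_le_rpow (by linarith) hn2 (by linarith)
  refine h5.trans ?_
  rw [← Real.rpow_mul (by norm_num)]
  have h6 : (2:ℝ) ^ (al * (J:ℝ) ^ 2 - 17 * J) / 4 = (2:ℝ) ^ (al * (J:ℝ) ^ 2 - 17 * J - 2) := by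
    have h60 : (2:ℝ) ^ (al * (J:ℝ) ^ 2 - 17 * J - 2)
        = (2:ℝ) ^ (al * (J:ℝ) ^ 2 - 17 * J) / (2:ℝ) ^ (2:ℝ) :=
      Real.rpow_sub (by norm_num) (al * (J:ℝ) ^ 2 - 17 * J) 2
    have h61 : (2:ℝ) ^ (2:ℝ) = 4 := by
      have h62 : (2:ℝ) ^ (2:ℝ) = (2:ℝ) ^ (2:ℕ) := by
        rw [← Real.rpow_natCast]
        norm_num
      rw [h62]
      norm_num
    rw [h60, h61]
  rw [h6]
  apply Real.rpow_le_rpow_of_exponent_le (by norm_num)
  have hJR : (2:ℝ) ≤ J := by exact_mod_cast hJ2'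
  have h7 : 2 * al + 20 ≤ δ * J := by
    have : (2 * al + 20) / δ ≤ (J:ℝ) := hN.trans (by exact_mod_cast hJN')
    rw [div_le_iff₀ hea] at this
    linarith
  nlinarith

end Pool.Agent.Helper233_Chg
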