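import Mathlib
import Pool.Agent.Helper233_Chg.Final

/-! The main theorem on dense infinite sets without `g` translates of an `h`-element set. -/

open Filter

namespace Pool.Agent.Helper233_Chg

theorem core (g h : ℕ) (hh : 2 ≤ h) (hhg : h ≤ g) :
      ∃ A : Set ℤ,
        A ⊆ {n : ℤ | 1 ≤ n} ∧ A.Infinite ∧
        (∀ X : Finset ℤ, X.card = h → ∀ k : Fin g → ℤ, Function.Injective k →
          ¬ (∀ i : Fin g, ∀ x ∈ X, x + k i ∈ A)) ∧
        ∀ ε : ℝ, 0 < ε →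
          ∀ᶠ n : ℕ in atTop,
            (n : ℝ) ^ ((1 - 1 / (h : ℝ)) * (1 - 1 / (g : ℝ)) *
                (1 + 1 / ((h : ℝ) * (g : ℝ) - 1)) - ε)
              ≤ ((A ∩ Set.Icc (1 : ℤ) (n : ℤ)).ncard : ℝ) := by
  classical
  obtain ⟨m, rfl⟩ : ∃ m, h = m + 1 := ⟨h - 1, by omega⟩
  obtain ⟨l, rfl⟩ : ∃ l, g = l + 1 := ⟨g - 1, by omega⟩
  have hm : 1 ≤ m := by omega
  have hl : 1 ≤ l := by omega
  obtain ⟨R, hR, hcard⟩ := exists_family
  obtain ⟨J0, hJ0, hsum⟩ := exists_J0 (alf_pos hm hl) (m + l)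
  obtain ⟨A0, hA0, hA1⟩ := limit_set hR hcard hm hl hJ0 hsum
  -- size of the remaining part of every block
  have hbig : ∀ J, J0 ≤ J → (2:ℝ) ^ (alf m l * (J:ℝ) ^ 2 - 17 * J) / 4 ≤
      (((R J).filter (· ∈ {y | y ∈ A0 ∧ ¬ BadAt m l A0 y})).card : ℝ) := by
    intro J hJ
    have h1 := card_remaining hR hJ0 hJ hA0 (hA1 J hJ).1 (hA1 J hJ).2
    have h2 := mu_ge hR hcard (l := l) hm (hJ0.trans hJ)
    have h3 : (2:ℝ) ^ (alf m l * (J:ℝ) ^ 2 - 17 * J) / 4 ≤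
        (∑ y ∈ R J, pj (bet m l) (blkIdx y)) / 4 := by linarith
    refine h3.trans (h1.trans (le_of_eq ?_))
    congr 2
  refine ⟨{y | y ∈ A0 ∧ ¬ BadAt m l A0 y}, ?_, ?_, ?_, ?_⟩
  · rintro y ⟨hy, -⟩
    obtain ⟨j, hj, hyj⟩ := hA0 y hy
    have h1 := (hR.range j (hJ0.trans hj) y hyj).1
    have h2 : (0:ℤ) < 2 ^ (j ^ 2) := by positivity
    show (1:ℤ) ≤ y
    omega
  · -- one element in every block
    have hne : ∀ J, J0 ≤ J → ∃ y, y ∈ R J ∧ y ∈ {y | y ∈ A0 ∧ ¬ BadAt m l A0 y} := by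
      intro J hJ
      have h1 := hbig J hJ
      have h2 : (0:ℝ) < (2:ℝ) ^ (alf m l * (J:ℝ) ^ 2 - 17 * J) / 4 := by
        have : (0:ℝ) < (2:ℝ) ^ (alf m l * (J:ℝ) ^ 2 - 17 * J) :=
          Real.rpow_pos_of_pos (by norm_num) _
        linarith
      have h3 : 0 < ((R J).filter (· ∈ {y | y ∈ A0 ∧ ¬ BadAt m l A0 y})).card := by
        have h4 := lt_of_lt_of_le h2 h1
        exact_mod_cast h4
      obtain ⟨y, hy⟩ := Finset.card_pos.1 h3
      exact ⟨y, (Finset.mem_filter.1 hy).1, (Finset.mem_filter.1 hy).2⟩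
    choose f hf1 hf2 using hne
    refine Set.infinite_of_injective_forall_mem
      (f := fun n : ℕ => f (J0 + n) (Nat.le_add_right _ _)) ?_ (fun n => hf2 _ _)
    intro a b hab
    simp only at hab
    have h1 := hf1 (J0 + a) (Nat.le_add_right _ _)
    have h2 := hf1 (J0 + b) (Nat.le_add_right _ _)
    rw [hab] at h1
    have := block_uniq hR _ _ _ (by omega) (by omega) h1 h2
    omega
  · intro X hX k hk
    exact no_config X hX k hk
  · intro ε hε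
    have hbig' : ∀ J, J0 ≤ J → (2:ℝ) ^ (alf m l * (J:ℝ) ^ 2 - 17 * J) / 4 ≤
        ((@Finset.filter ℤ (· ∈ {y | y ∈ A0 ∧ ¬ BadAt m l A0 y})
          (fun a => Classical.propDecidable _) (R J)).card : ℝ) := by
      intro J hJ
      convert hbig J hJ
    have h1 := growth (A := {y | y ∈ A0 ∧ ¬ BadAt m l A0 y}) hR hJ0 (alf_pos hm hl) hbig' ε hε
    have h2 : (1 - 1 / ((m + 1 : ℕ) : ℝ)) * (1 - 1 / ((l + 1 : ℕ) : ℝ)) *
                (1 + 1 / (((m + 1 : ℕ) : ℝ) * ((l + 1 : ℕ) : ℝ) - 1)) = alf m l := by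
      have hm0 : (1:ℝ) ≤ m := by exact_mod_cast hm
      have hl0 : (1:ℝ) ≤ l := by exact_mod_cast hl
      unfold alf
      push_cast
      have e1 : (m:ℝ) + 1 ≠ 0 := by positivity
      have e2 : (l:ℝ) + 1 ≠ 0 := by positivity
      have e3 : (m:ℝ) * l + m + l ≠ 0 := by positivity
      have e4 : ((m:ℝ) + 1) * (l + 1) - 1 = m * l + m + l := by ring
      rw [e4]
      field_simp
      ring
    rw [h2]
    exact h1

end Pool.Agent.Helper233_Chg
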